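import Pool.Agent.H67.WP.Pow

/-!
# The weak Elliott conjecture when all further factors but one have finite order

Case of two factors for `f^q` and `g_j^q`, and `pw`.
-/

set_option autoImplicit false

namespace Pool.H67.WP

open Finset Pool.H2.MR Pool.H2.WE

theorem OB_pow {f : ℕ → ℂ} (hf : OB f) (q : ℕ) : OB (fun n => f n ^ q) where
  one := by simp [hf.one]
  mul := fun m n h => by
    show f (m * n) ^ q = f m ^ q * f n ^ q
    rw [hf.mul m n h, mul_pow]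
  bd := fun n => by
    show ‖f n ^ q‖ ≤ 1
    rw [norm_pow]
    exact pow_le_one₀ (norm_nonneg _) (hf.bd n)

/-- one fixed index `j` -/
theorem resJ (k q : ℕ) (hq : 1 ≤ q) (h : Fin (k + 1) → ℤ) (hh : ∀ i, i ≠ 0 → h i ≠ h 0) (j : Fin k) :
    ∃ (δ : ℝ) (A : ℕ), 0 < δ ∧ ∀ N : ℕ, A ≤ N → ∀ f : ℕ → ℂ, OB f → NA A N (fun n => f n ^ q) →
      ∀ g : Fin k → ℕ → ℂ, (∀ i, OB (g i)) → (∀ i, i ≠ j → ∀ n, ∃ r : ℝ, 0 ≤ r ∧ g i n ^ q = r) →
        ‖(1 / (N : ℂ)) * ∑ n ∈ Icc 1 N, f ((n : ℤ) + h 0).toNat * ∏ i : Fin k, g i ((n : ℤ) + h i.succ).toNat‖ ≤ 1 - δ := by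
  classical
  obtain ⟨δ, A, hδ, H⟩ := resN 1 1 le_rfl ![h 0, h j.succ] (by
    intro i hi
    fin_cases i
    · exact absurd rfl hi
    · exact hh _ (Fin.succ_ne_zero j))
  have hq0 : (0 : ℝ) < q := by exact_mod_cast hq
  refine ⟨(δ / 2 / (2 * q)) ^ 2 / 2, A + 1, by positivity, ?_⟩
  intro N hN f hf hNA g hg hr
  have hN1 : 1 ≤ N := by omega
  have hN0 : (0 : ℝ) < N := by exact_mod_cast hN1
  have h1 := H N (by omega) (fun n => f n ^ q) (OB_pow hf q) (NA_mono hNA (by omega)) (Or.inl rfl)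
    (fun _ n => g j n ^ q) (fun _ => OB_pow (hg j) q)
  simp only [Fin.prod_univ_one, Matrix.cons_val_zero, Fin.succ_zero_eq_one, Matrix.cons_val_one] at h1
  rw [norm_mul, norm_div, norm_one, Complex.norm_natCast] at h1 ⊢
  choose! r hr0 hr1 using hr
  by_contra hcon
  push Not at hcon
  have hcon' : (1 - (δ / 2 / (2 * q)) ^ 2 / 2) * N ≤
      ‖∑ n ∈ Icc 1 N, f ((n : ℤ) + h 0).toNat * ∏ i : Fin k, g i ((n : ℤ) + h i.succ).toNat‖ := by
    have h2 := mul_lt_mul_of_pos_right hcon hN0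
    refine h2.le.trans (le_of_eq ?_)
    field_simp
  have hr2 : ∀ i, i ≠ j → ∀ n, r i n ≤ 1 := by
    intro i hi n
    have e := hr1 i hi n
    have e2 : ‖g i n ^ q‖ ≤ 1 := (OB_pow (hg i) q).bd n
    rw [e, Complex.norm_real, Real.norm_eq_abs, abs_of_nonneg (hr0 i hi n)] at e2
    exact e2
  have h3 := pw q N hq hN1 (fun n => f ((n : ℤ) + h 0).toNat * ∏ i : Fin k, g i ((n : ℤ) + h i.succ).toNat)
    (fun n => f ((n : ℤ) + h 0).toNat ^ q * g j ((n : ℤ) + h j.succ).toNat ^ q)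
    (fun n => ∏ i ∈ univ.erase j, r i ((n : ℤ) + h i.succ).toNat)
    (fun n => by
      show ‖_ * _‖ ≤ 1
      rw [norm_mul, norm_prod]
      refine mul_le_one₀ (hf.bd _) (prod_nonneg fun i _ => norm_nonneg _) ?_
      exact prod_le_one (fun i _ => norm_nonneg _) fun i _ => (hg i).bd _)
    (fun n => by
      show ‖_ * _‖ ≤ 1
      rw [norm_mul]
      exact mul_le_one₀ ((OB_pow hf q).bd _) (norm_nonneg _) ((OB_pow (hg j) q).bd _))
    (fun n => ⟨prod_nonneg fun i hi => hr0 i (ne_of_mem_erase hi) _,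
      prod_le_one (fun i hi => hr0 i (ne_of_mem_erase hi) _) fun i hi => hr2 i (ne_of_mem_erase hi) _⟩)
    (fun n => by
      show (_ * _) ^ q = _ * _ * _
      rw [mul_pow, ← mul_prod_erase univ _ (mem_univ j), mul_pow, ← prod_pow]
      push_cast
      rw [mul_assoc]
      congr 2
      refine prod_congr rfl fun i hi => ?_
      exact hr1 i (ne_of_mem_erase hi) _)
    (δ / 2) (by positivity) hcon'
  have h4 : 1 / (N : ℝ) * ((1 - δ / 2) * N) ≤ 1 - δ := by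
    refine le_trans ?_ h1
    exact mul_le_mul_of_nonneg_left h3 (by positivity)
  rw [show 1 / (N : ℝ) * ((1 - δ / 2) * N) = 1 - δ / 2 by field_simp] at h4
  linarith

theorem resC (k q : ℕ) (hq : 1 ≤ q) (h : Fin (k + 1) → ℤ) (hh : ∀ i, i ≠ 0 → h i ≠ h 0) :
    ∃ (δ : ℝ) (A : ℕ), 0 < δ ∧ ∀ N : ℕ, A ≤ N → ∀ f : ℕ → ℂ, OB f → NA A N (fun n => f n ^ q) →
      ∀ g : Fin k → ℕ → ℂ, (∀ i, OB (g i)) → (∃ j, ∀ i, i ≠ j → ∀ n, ∃ r : ℝ, 0 ≤ r ∧ g i n ^ q = r) →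
        ‖(1 / (N : ℂ)) * ∑ n ∈ Icc 1 N, f ((n : ℤ) + h 0).toNat * ∏ i : Fin k, g i ((n : ℤ) + h i.succ).toNat‖ ≤ 1 - δ := by
  classical
  choose δ A hδ H using fun j => resJ k q hq h hh j
  by_cases hk : (univ : Finset (Fin k)).Nonempty
  · obtain ⟨j0, -, hj0⟩ := exists_min_image univ δ hk
    refine ⟨δ j0, ∑ j, A j, hδ j0, ?_⟩
    intro N hN f hf hNA g hg hr
    obtain ⟨j, hj⟩ := hr
    have hA : A j ≤ ∑ j, A j := single_le_sum (f := A) (fun _ _ => Nat.zero_le _) (mem_univ j)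
    refine (H j N (hA.trans hN) f hf (NA_mono hNA hA) g hg hj).trans ?_
    have := hj0 j (mem_univ j)
    linarith
  · refine ⟨1, 0, one_pos, ?_⟩
    intro N hN f hf hNA g hg hr
    obtain ⟨j, -⟩ := hr
    exact absurd ⟨j, mem_univ j⟩ hk

end Pool.H67.WP
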