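import Pool.Agent.H2.MU.Res

/-!
# The weak Elliott conjecture by raising to a power

`pw`: if the mean of `z` is close to `1` in absolute value and `z ^ q = v * r`, `0 ≤ r ≤ 1`, then the mean of `v` is close
to `1` in absolute value.
-/

namespace Pool.H67.WP

open Finset Pool.H2.MR Pool.H2.WE

theorem norm_pow_sub_le {a b : ℂ} (ha : ‖a‖ ≤ 1) (hb : ‖b‖ ≤ 1) (q : ℕ) : ‖a ^ q - b ^ q‖ ≤ q * ‖a - b‖ := by
  induction q with
  | zero => simp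
  | succ q ih =>
    have e : a ^ (q + 1) - b ^ (q + 1) = a ^ q * (a - b) + (a ^ q - b ^ q) * b := by ring
    rw [e]
    refine (norm_add_le _ _).trans ?_
    rw [norm_mul, norm_mul, norm_pow]
    have h1 : ‖a‖ ^ q ≤ 1 := pow_le_one₀ (norm_nonneg _) ha
    have h2 : ‖a‖ ^ q * ‖a - b‖ ≤ 1 * ‖a - b‖ := mul_le_mul_of_nonneg_right h1 (norm_nonneg _)
    have h3 : ‖a ^ q - b ^ q‖ * ‖b‖ ≤ (q * ‖a - b‖) * 1 :=
      mul_le_mul ih hb (norm_nonneg _) (by positivity)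
    push_cast
    linarith

theorem pw (q N : ℕ) (hq : 1 ≤ q) (hN : 1 ≤ N) (z v : ℕ → ℂ) (r : ℕ → ℝ) (hz : ∀ n, ‖z n‖ ≤ 1)
    (hv : ∀ n, ‖v n‖ ≤ 1) (hr : ∀ n, 0 ≤ r n ∧ r n ≤ 1) (h : ∀ n, z n ^ q = v n * r n) (δ : ℝ) (hδ : 0 < δ)
    (H : (1 - (δ / (2 * q)) ^ 2 / 2) * N ≤ ‖∑ n ∈ Icc 1 N, z n‖) : (1 - δ) * N ≤ ‖∑ n ∈ Icc 1 N, v n‖ := by
  have hq0 : (0 : ℝ) < q := by exact_mod_cast hq
  have hN0 : (0 : ℝ) < N := by exact_mod_cast hN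
  set S := ∑ n ∈ Icc 1 N, z n with hS
  obtain ⟨ζ, hζ1, hζS⟩ : ∃ ζ : ℂ, ‖ζ‖ = 1 ∧ (starRingEnd ℂ) ζ * S = ‖S‖ := by
    rcases eq_or_ne S 0 with h0 | h0
    · exact ⟨1, norm_one, by rw [h0]; simp⟩
    · have hS0 : (‖S‖ : ℂ) ≠ 0 := by exact_mod_cast norm_ne_zero_iff.2 h0
      refine ⟨S / ‖S‖, by rw [norm_div, Complex.norm_real, norm_norm]; exact div_self (norm_ne_zero_iff.2 h0), ?_⟩
      rw [map_div₀, Complex.conj_ofReal, div_mul_eq_mul_div, mul_comm, Complex.mul_conj, Complex.normSq_eq_norm_sq]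
      push_cast
      field_simp
  have h1 : ∑ n ∈ Icc 1 N, ‖ζ - z n‖ ^ 2 ≤ N * (δ / (2 * q)) ^ 2 := by
    have h2 : ∀ n ∈ Icc 1 N, ‖ζ - z n‖ ^ 2 ≤ 2 - 2 * ((starRingEnd ℂ) ζ * z n).re := by
      intro n _
      have e1 : ‖ζ - z n‖ ^ 2 = ‖ζ‖ ^ 2 + ‖z n‖ ^ 2 - 2 * ((starRingEnd ℂ) ζ * z n).re := by
        rw [← Complex.normSq_eq_norm_sq, ← Complex.normSq_eq_norm_sq, ← Complex.normSq_eq_norm_sq,
          Complex.normSq_sub]
        congr 2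
        rw [← Complex.conj_re, map_mul, Complex.conj_conj]
      rw [e1, hζ1]
      have h3 : ‖z n‖ ^ 2 ≤ 1 := pow_le_one₀ (norm_nonneg _) (hz n)
      linarith
    refine (sum_le_sum h2).trans ?_
    rw [sum_sub_distrib, sum_const, Nat.card_Icc, Nat.add_sub_cancel, nsmul_eq_mul, ← mul_sum,
      ← Complex.re_sum, ← mul_sum, ← hS, hζS, Complex.ofReal_re]
    nlinarith
  have h4 : ∑ n ∈ Icc 1 N, ‖ζ - z n‖ ≤ N * (δ / (2 * q)) := by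
    have h5 := sq_sum_le_card_mul_sum_sq (s := Icc 1 N) (f := fun n => ‖ζ - z n‖)
    rw [Nat.card_Icc, Nat.add_sub_cancel] at h5
    have h6 : (∑ n ∈ Icc 1 N, ‖ζ - z n‖) ^ 2 ≤ (N * (δ / (2 * q))) ^ 2 := by
      refine h5.trans ?_
      calc (N : ℝ) * ∑ n ∈ Icc 1 N, ‖ζ - z n‖ ^ 2 ≤ N * (N * (δ / (2 * q)) ^ 2) :=
            mul_le_mul_of_nonneg_left h1 hN0.le
        _ = (N * (δ / (2 * q))) ^ 2 := by ring
    exact (abs_le_of_sq_le_sq' h6 (by positivity)).2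
  have h7 : ∀ n ∈ Icc 1 N, ‖ζ ^ q - v n‖ ≤ 2 * q * ‖ζ - z n‖ := by
    intro n _
    have e1 : ζ ^ q - v n = (ζ ^ q - z n ^ q) + (z n ^ q - v n) := by ring
    rw [e1]
    refine (norm_add_le _ _).trans ?_
    have h8 := norm_pow_sub_le (a := ζ) (b := z n) hζ1.le (hz n) q
    have h9 : ‖z n ^ q - v n‖ ≤ q * ‖ζ - z n‖ := by
      have e2 : z n ^ q - v n = -(v n * ((1 - r n : ℝ) : ℂ)) := by rw [h]; push_cast; ring
      rw [e2, norm_neg, norm_mul, Complex.norm_real, Real.norm_eq_abs, abs_of_nonneg (by linarith [(hr n).2])]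
      have h10 : ‖z n‖ ^ q ≤ r n := by
        rw [← norm_pow, h, norm_mul, Complex.norm_real, Real.norm_eq_abs, abs_of_nonneg (hr n).1]
        calc ‖v n‖ * r n ≤ 1 * r n := mul_le_mul_of_nonneg_right (hv n) (hr n).1
          _ = r n := one_mul _
      have h11 : 1 - ‖z n‖ ^ q ≤ q * ‖ζ - z n‖ := by
        have e3 : ‖ζ ^ q‖ = 1 := by rw [norm_pow, hζ1, one_pow]
        calc 1 - ‖z n‖ ^ q = ‖ζ ^ q‖ - ‖z n ^ q‖ := by rw [e3, norm_pow]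
          _ ≤ ‖ζ ^ q - z n ^ q‖ := norm_sub_norm_le _ _
          _ ≤ q * ‖ζ - z n‖ := h8
      calc ‖v n‖ * (1 - r n) ≤ 1 * (1 - r n) :=
            mul_le_mul_of_nonneg_right (hv n) (by linarith [(hr n).2])
        _ ≤ q * ‖ζ - z n‖ := by linarith
    linarith
  have h12 : ‖∑ n ∈ Icc 1 N, (ζ ^ q - v n)‖ ≤ δ * N := by
    refine (norm_sum_le _ _).trans ((sum_le_sum h7).trans ?_)
    rw [← mul_sum]
    calc 2 * (q : ℝ) * ∑ n ∈ Icc 1 N, ‖ζ - z n‖ ≤ 2 * q * (N * (δ / (2 * q))) :=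
          mul_le_mul_of_nonneg_left h4 (by positivity)
      _ = δ * N := by field_simp
  rw [sum_sub_distrib, sum_const, Nat.card_Icc, Nat.add_sub_cancel, nsmul_eq_mul] at h12
  have h13 : (N : ℝ) = ‖(N : ℂ) * ζ ^ q‖ := by
    rw [norm_mul, norm_pow, hζ1, one_pow, mul_one, Complex.norm_natCast]
  have h14 := norm_sub_norm_le ((N : ℂ) * ζ ^ q) (∑ n ∈ Icc 1 N, v n)
  rw [← h13] at h14
  linarith

end Pool.H67.WP
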